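import Pool.Agent.W25.UB.Stm2

set_option autoImplicit false

/-!
The Selberg squares are bounded on average with Gaussian weights.
-/

namespace Pool.Agent.W382.UBrcb

open Finset Filter
open Pool.Agent.W25.UB

theorem main (hRC : Pool.Agent.H442R2.BX.St_RC) (hGS : Pool.Agent.H442R2.BX.St_GS) : St_RCB := by
  classical
  intro ε₁ hε _
  obtain ⟨N₀, C, hC, h⟩ := hRC ε₁ hε
  refine ⟨2 * (1 + C) ^ 2, by nlinarith, ?_⟩
  filter_upwards [eventually_ge_atTop (max N₀ 1)] with N hN P z hP a n ha hna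
  have hN1 : 1 ≤ N := le_trans (le_max_right _ _) hN
  have hN0 : N₀ ≤ N := le_trans (le_max_left _ _) hN
  have h1 := h (2 * N) z (by omega) a n (by push_cast; exact ha) hna
  set x : ℝ := 1 + |(n : ℝ)| / ((2 * N : ℕ) : ℝ) with hx
  have hx1 : 1 ≤ x := by
    rw [hx]
    have : 0 ≤ |(n : ℝ)| / ((2 * N : ℕ) : ℝ) := by positivity
    linarith
  have hsub : (sq P z).filter (fun d : ℕ => (d : ℤ) ∣ n - a) ⊆
      insert 1 (Pool.Agent.H442R2.BX.rd (((2 * N : ℕ) : ℝ) ^ ε₁) z (n - a)) := by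
    intro d hd
    unfold Pool.Agent.W25.UB.sq at hd
    rw [mem_filter, mem_filter, mem_Icc] at hd
    obtain ⟨⟨⟨hd1, hdz⟩, _, hdP⟩, hdv⟩ := hd
    rw [mem_insert]
    by_cases h0 : d = 1
    · exact Or.inl h0
    · right
      unfold Pool.Agent.H442R2.BX.rd Pool.Agent.H442R2.BX.roughs
      rw [mem_filter, mem_filter, mem_Icc]
      exact ⟨⟨⟨hd1, hdz⟩, by omega, fun p hp hpd => (hP p (hdP p hp hpd)).2⟩, hdv⟩
  have hcard : (((sq P z).filter (fun d : ℕ => (d : ℤ) ∣ n - a)).card : ℝ) ≤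
      1 + C * x ^ (1 / 4 : ℝ) := by
    have h2 := (card_le_card hsub).trans (card_insert_le _ _)
    have h3 : (((sq P z).filter (fun d : ℕ => (d : ℤ) ∣ n - a)).card : ℝ) ≤
        ((Pool.Agent.H442R2.BX.rd (((2 * N : ℕ) : ℝ) ^ ε₁) z (n - a)).card : ℝ) + 1 := by
      exact_mod_cast h2
    linarith
  have hx4 : 1 ≤ x ^ (1 / 4 : ℝ) := Real.one_le_rpow hx1 (by norm_num)
  have hcard2 : (((sq P z).filter (fun d : ℕ => (d : ℤ) ∣ n - a)).card : ℝ) ≤
      (1 + C) * x ^ (1 / 4 : ℝ) := by linarith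
  have hsq : (((sq P z).filter (fun d : ℕ => (d : ℤ) ∣ n - a)).card : ℝ) ^ 2 ≤
      (1 + C) ^ 2 * x := by
    have h4 := pow_le_pow_left₀ (Nat.cast_nonneg _) hcard2 2
    have h5 : ((1 + C) * x ^ (1 / 4 : ℝ)) ^ 2 = (1 + C) ^ 2 * x ^ (1 / 2 : ℝ) := by
      rw [mul_pow, ← Real.rpow_natCast (x ^ (1 / 4 : ℝ)) 2, ← Real.rpow_mul (by linarith)]
      norm_num
    have h6 : x ^ (1 / 2 : ℝ) ≤ x := by
      conv_rhs => rw [← Real.rpow_one x]
      exact Real.rpow_le_rpow_of_exponent_le hx1 (by norm_num)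
    rw [h5] at h4
    exact h4.trans (mul_le_mul_of_nonneg_left h6 (by positivity))
  have hW : 0 ≤ Pool.Agent.H442R2.KF.Wt (2 * N) n := (Real.exp_pos _).le
  have hg := (hGS (2 * N) (by omega)).1 n
  have e4 : 2 * (2 * N) = 4 * N := by ring
  rw [e4] at hg
  calc Pool.Agent.H442R2.KF.Wt (2 * N) n *
        (((sq P z).filter (fun d : ℕ => (d : ℤ) ∣ n - a)).card : ℝ) ^ 2
      ≤ Pool.Agent.H442R2.KF.Wt (2 * N) n * ((1 + C) ^ 2 * x) := mul_le_mul_of_nonneg_left hsq hW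
    _ = (1 + C) ^ 2 * (Pool.Agent.H442R2.KF.Wt (2 * N) n * x) := by ring
    _ ≤ (1 + C) ^ 2 * (2 * Pool.Agent.H442R2.KF.Wt (4 * N) n) :=
        mul_le_mul_of_nonneg_left hg (by positivity)
    _ = 2 * (1 + C) ^ 2 * Pool.Agent.H442R2.KF.Wt (4 * N) n := by ring

end Pool.Agent.W382.UBrcb
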